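import Mathlib
import Pool.Agent.H17.LF.Two

open MvPolynomial

namespace Pool.Agent.Results.MP_34e55c_ag.CharTwo

/-- The extension of an ideal of `O[x₁,x₂,x₃]` to `K[x₁,x₂,x₃]`. -/
noncomputable def extension {O : Type*} [CommRing O] (K : Type*) [Field K] [Algebra O K]
    (P : Ideal (MvPolynomial (Fin 3) O)) : Ideal (MvPolynomial (Fin 3) K) :=
  P.map (MvPolynomial.map (algebraMap O K))

/-- (a) Over a field `κ` of characteristic two the tangent dimension of every ideal of finite
colength in `κ[x₁,x₂,x₃]` has the parity of the colength.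
(b) Let `O[x₁,x₂,x₃]/P` be a finite free `O`-module.  Then the extensions of `P` to `K` and to
`κ` have the same colength, and the tangent dimension of the extension to `K` has the parity of the
colength if and only if it has the same parity as the tangent dimension of the extension
to `κ`. -/
theorem result {O K κ : Type*} [CommRing O] [Field K] [Field κ] [Algebra O K] [Algebra O κ]
    (h2 : (2 : κ) = 0) :
    (∀ I : Ideal (MvPolynomial (Fin 3) κ), Module.Finite κ (MvPolynomial (Fin 3) κ ⧸ I) →
      Module.Finite κ (I →ₗ[MvPolynomial (Fin 3) κ] MvPolynomial (Fin 3) κ ⧸ I) ∧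
      Module.finrank κ (I →ₗ[MvPolynomial (Fin 3) κ] MvPolynomial (Fin 3) κ ⧸ I)
        ≡ Module.finrank κ (MvPolynomial (Fin 3) κ ⧸ I) [MOD 2]) ∧
    (∀ P : Ideal (MvPolynomial (Fin 3) O), Module.Finite O (MvPolynomial (Fin 3) O ⧸ P) →
      Module.Free O (MvPolynomial (Fin 3) O ⧸ P) →
      Module.Finite K (MvPolynomial (Fin 3) K ⧸ extension K P) ∧
      Module.Finite κ (MvPolynomial (Fin 3) κ ⧸ extension κ P) ∧
      Module.finrank K (MvPolynomial (Fin 3) K ⧸ extension K P)
        = Module.finrank κ (MvPolynomial (Fin 3) κ ⧸ extension κ P) ∧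
      (Module.finrank K (extension K P →ₗ[MvPolynomial (Fin 3) K]
          MvPolynomial (Fin 3) K ⧸ extension K P)
        ≡ Module.finrank K (MvPolynomial (Fin 3) K ⧸ extension K P) [MOD 2] ↔
      Module.finrank K (extension K P →ₗ[MvPolynomial (Fin 3) K]
          MvPolynomial (Fin 3) K ⧸ extension K P)
        ≡ Module.finrank κ (extension κ P →ₗ[MvPolynomial (Fin 3) κ]
          MvPolynomial (Fin 3) κ ⧸ extension κ P) [MOD 2])) := by
  refine ⟨fun I hI => ⟨Pool.Agent.H13.Par.finite_hom I,
    Pool.Agent.H17.LF.parity_char_two h2 I⟩, fun P h1 h3 => ?_⟩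
  have hnt : Nontrivial O := by
    by_contra h
    rw [not_nontrivial_iff_subsingleton] at h
    have h4 : (1 : κ) = 0 := by
      rw [← map_one (algebraMap O κ), Subsingleton.elim (1 : O) 0, map_zero]
    exact one_ne_zero h4
  let b := Module.Free.chooseBasis O (MvPolynomial (Fin 3) O ⧸ P)
  obtain ⟨hK1, hK2⟩ := Pool.Agent.H17.LF.finrank_extend (K := K) P b
  obtain ⟨hk1, hk2⟩ := Pool.Agent.H17.LF.finrank_extend (K := κ) P b
  have h5 := Pool.Agent.H17.LF.parity_char_two h2 (Pool.Agent.H17.LF.extend κ P)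
  have hd : Module.finrank K (MvPolynomial (Fin 3) K ⧸ extension K P)
      = Module.finrank κ (MvPolynomial (Fin 3) κ ⧸ extension κ P) := hK2.trans hk2.symm
  refine ⟨hK1, hk1, hd, ?_⟩
  rw [hd]
  exact ⟨fun h => h.trans h5.symm, fun h => h.trans h5⟩

end Pool.Agent.Results.MP_34e55c_ag.CharTwo
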