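import Mathlib
import Pool.Agent.H13.ParSymm
import Pool.Agent.H16.COD.Fin

/-!
# Divisors of jumps of the tangent dimension and the parity `t ≡ d (mod 2)`
-/

set_option autoImplicit false

open MvPolynomial

namespace Pool.Agent.Results.MP_34e55c_ag.JumpDivisors

universe u

/-- `t(I) = dim Hom_S(I, S/I)`, the dimension of the tangent space of the Hilbert scheme -/
noncomputable def tdim {K : Type u} [Field K] (I : Ideal (MvPolynomial (Fin 3) K)) : ℕ :=
  Module.finrank K (I →ₗ[MvPolynomial (Fin 3) K] MvPolynomial (Fin 3) K ⧸ I)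

/-- `d(I) = dim S/I` -/
noncomputable def colength {K : Type u} [Field K] (I : Ideal (MvPolynomial (Fin 3) K)) : ℕ :=
  Module.finrank K (MvPolynomial (Fin 3) K ⧸ I)

/-- The member of the family `P` over the field `L`: the ideal of `L[x₁,x₂,x₃]` generated by the
image of `P`. -/
noncomputable def fibre {O L : Type u} [CommRing O] [Field L] (f : O →+* L)
    (P : Ideal (MvPolynomial (Fin 3) O)) : Ideal (MvPolynomial (Fin 3) L) :=
  P.map (MvPolynomial.map f)

/-- The group `Γ` acts on `O[x₁,x₂,x₃]` by ring automorphisms which preserve `P` and `O`, act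
trivially on the residue field of `O` and by affine substitutions on the variables; `χ g` is the
class in the residue field of the determinant of the linear part of `g`. -/
def Acts {O : Type u} [CommRing O] [IsLocalRing O] (P : Ideal (MvPolynomial (Fin 3) O))
    {Γ : Type u} [Group Γ] (Φ : Γ →* RingAut (MvPolynomial (Fin 3) O))
    (χ : Γ → IsLocalRing.ResidueField O) : Prop :=
  ∀ g, (∀ p ∈ P, Φ g p ∈ P) ∧
    (∀ a : O, ∃ a' : O, Φ g (C a) = C a' ∧ IsLocalRing.residue O a' = IsLocalRing.residue O a) ∧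
    ∃ (A : Matrix (Fin 3) (Fin 3) O) (b : Fin 3 → O),
      (∀ i, Φ g (X i) = ∑ j, C (A i j) * X j + C (b i)) ∧ χ g = IsLocalRing.residue O A.det

/-- There is a squarefree `m` in `O` with `g(m) = e_g m` for all `g` such that the tangent
dimension is larger than `t` at all prime divisors of `m`. -/
def JumpCocycle {O : Type u} [CommRing O] (P : Ideal (MvPolynomial (Fin 3) O))
    {Γ : Type u} [Group Γ] (Φ : Γ →* RingAut (MvPolynomial (Fin 3) O)) (t : ℕ)
    (e : Γ → Oˣ) : Prop :=
  ∃ m : O, Squarefree m ∧ (∀ g, Φ g (C m) = C (e g * m)) ∧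
    ∀ p : O, Prime p → p ∣ m → ∀ (L : Type u) [Field L] (f : O →+* L),
      RingHom.ker f = Ideal.span {p} → t < tdim (fibre f P)

/-- `J` is the general member of a family over a factorial local domain with a group action for
which no semi-invariant divisor of jumps has a class `e` with `χ e` a square of a character. -/
def Controlled {K : Type u} [Field K] (J : Ideal (MvPolynomial (Fin 3) K)) : Prop :=
  ∃ (O : Type u) (_ : CommRing O) (_ : IsDomain O) (_ : UniqueFactorizationMonoid O)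
    (_ : IsLocalRing O) (P : Ideal (MvPolynomial (Fin 3) O)) (Γ : Type u) (_ : Group Γ)
    (Φ : Γ →* RingAut (MvPolynomial (Fin 3) O)) (χ : Γ → IsLocalRing.ResidueField O)
    (j : O →+* K), Function.Injective j ∧ J = fibre j P ∧
    Module.Free O (MvPolynomial (Fin 3) O ⧸ P) ∧ Module.Finite O (MvPolynomial (Fin 3) O ⧸ P) ∧
    Acts P Φ χ ∧
    ¬ ∃ e : Γ → Oˣ, JumpCocycle P Φ (tdim J) e ∧
      ∃ ψ : Γ →* IsLocalRing.ResidueField O, ∀ g,
        χ g * IsLocalRing.residue O (e g : O) = ψ g ^ 2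

theorem formula {O : Type u} [CommRing O] [IsDomain O] [UniqueFactorizationMonoid O]
    [IsLocalRing O] (P : Ideal (MvPolynomial (Fin 3) O))
    (hfree : Module.Free O (MvPolynomial (Fin 3) O ⧸ P))
    (hfin : Module.Finite O (MvPolynomial (Fin 3) O ⧸ P)) {Γ : Type u} [Group Γ]
    (Φ : Γ →* RingAut (MvPolynomial (Fin 3) O)) (χ : Γ → IsLocalRing.ResidueField O)
    (hacts : Acts P Φ χ) {K : Type u} [Field K] (j : O →+* K) (hj : Function.Injective j) :
    Module.Finite K (MvPolynomial (Fin 3) K ⧸ fibre j P) ∧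
    (∃ e : Γ → Oˣ, JumpCocycle P Φ (tdim (fibre j P)) e ∧
      ∃ ψ : Γ →* IsLocalRing.ResidueField O, ∀ g,
        χ g ^ (tdim (fibre j P) + colength (fibre j P)) * IsLocalRing.residue O (e g : O) =
          ψ g ^ 2) ∧
    ∃ χ' : Γ →* IsLocalRing.ResidueField O, ∀ g, χ' g = χ g := by
  obtain ⟨h1, ⟨e, ⟨m, hm, hem, hjump⟩, hψ⟩, h3⟩ := Pool.Agent.H16.COD.main P hfree hfin Φ χ hacts
    j hj (tdim (fibre j P)) (colength (fibre j P)) rfl rfl
  exact ⟨h1, ⟨e, ⟨m, hm, hem, fun p hp hpm L _ f hker => hjump p hp hpm L f hker⟩, hψ⟩, h3⟩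

theorem parity_of_controlled {K : Type u} [Field K] (J : Ideal (MvPolynomial (Fin 3) K))
    (hJ : Controlled J) : Module.Finite K (MvPolynomial (Fin 3) K ⧸ J) ∧
      tdim J ≡ colength J [MOD 2] := by
  obtain ⟨O, _, _, _, _, P, Γ, _, Φ, χ, j, hj, rfl, hfree, hfin, hacts, hno⟩ := hJ
  obtain ⟨h1, ⟨e, he, ψ, hψ⟩, χ', hχ'⟩ := formula P hfree hfin Φ χ hacts j hj
  refine ⟨h1, ?_⟩
  rcases Nat.even_or_odd' (tdim (fibre j P) + colength (fibre j P)) with ⟨q, hq | hq⟩
  · unfold Nat.ModEq
    omega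
  · exfalso
    apply hno
    refine ⟨e, he, { toFun := fun g => ψ g * χ' g⁻¹ ^ q, map_one' := ?_, map_mul' := ?_ }, ?_⟩
    · rw [inv_one, map_one, map_one, one_pow, one_mul]
    · intro g h
      rw [mul_inv_rev, map_mul, map_mul, mul_pow]
      ring
    · intro g
      change _ = (ψ g * χ' g⁻¹ ^ q) ^ 2
      have h4 : χ' g * χ' g⁻¹ = 1 := by rw [← map_mul, mul_inv_cancel, map_one]
      have h5 := hψ g
      rw [hq, ← hχ'] at h5
      rw [mul_pow, ← h5, ← hχ']
      have h6 : χ' g ^ (2 * q + 1) * (χ' g⁻¹ ^ q) ^ 2 = χ' g := by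
        calc χ' g ^ (2 * q + 1) * (χ' g⁻¹ ^ q) ^ 2 = (χ' g * χ' g⁻¹) ^ (2 * q) * χ' g := by ring
          _ = χ' g := by rw [h4, one_pow, one_mul]
      calc χ' g * IsLocalRing.residue O (e g : O)
          = (χ' g ^ (2 * q + 1) * (χ' g⁻¹ ^ q) ^ 2) * IsLocalRing.residue O (e g : O) := by rw [h6]
        _ = _ := by ring

/-- For a finite intersection of pairwise coprime controlled ideals the tangent dimension and the
colength have the same parity. -/
theorem result {K : Type u} [Field K] {ι : Type} [Finite ι]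
    (J : ι → Ideal (MvPolynomial (Fin 3) K)) (hcop : Pairwise fun i j => IsCoprime (J i) (J j))
    (hJ : ∀ i, Controlled (J i)) (I : Ideal (MvPolynomial (Fin 3) K)) (hI : I = ⨅ i, J i) :
    Module.Finite K (MvPolynomial (Fin 3) K ⧸ I) ∧
      Module.Finite K (I →ₗ[MvPolynomial (Fin 3) K] MvPolynomial (Fin 3) K ⧸ I) ∧
      tdim I ≡ colength I [MOD 2] := by
  obtain ⟨inst⟩ := nonempty_fintype ι
  have hgood := Pool.Agent.H13.Par.good_iInf J Finset.univ
    (fun i _ j _ hij => hcop hij)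
    (fun i _ => parity_of_controlled (J i) (hJ i))
  have h1 : (⨅ i ∈ (Finset.univ : Finset ι), J i) = I := by
    rw [hI]
    simp
  rw [h1] at hgood
  obtain ⟨h3, h4⟩ := hgood
  exact ⟨h3, Pool.Agent.H13.Par.finite_hom I, h4⟩

end Pool.Agent.Results.MP_34e55c_ag.JumpDivisors
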