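import Mathlib
import Pool.Agent.H13.ParSymm
import Pool.Agent.H17.LF.Even
import Pool.Agent.H17.LF.Iso

open MvPolynomial

namespace Pool.Agent.Results.MP_34e55c_ag.LeadingForms

/-- The initial ideal of `I` for integer weights `w`: it is generated by the components of weight
`n` of the elements of `I` all of whose components of weight less than `n` vanish. -/
noncomputable def initialIdeal {k : Type*} [Field k] (w : Fin 3 → ℤ)
    (I : Ideal (MvPolynomial (Fin 3) k)) : Ideal (MvPolynomial (Fin 3) k) :=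
  Ideal.span {p | ∃ n : ℤ, ∃ f ∈ I, (∀ m < n, weightedHomogeneousComponent w m f = 0) ∧
    p = weightedHomogeneousComponent w n f}

/-- `φ` sends forms of weight `n` to classes of forms of weight `n + j`. -/
def HomogeneousOfDegree {k : Type*} [Field k] (w : Fin 3 → ℤ) (j : ℤ)
    {L : Ideal (MvPolynomial (Fin 3) k)}
    (φ : L →ₗ[MvPolynomial (Fin 3) k] MvPolynomial (Fin 3) k ⧸ L) : Prop :=
  ∀ (n : ℤ) (p : L), IsWeightedHomogeneous w (p : MvPolynomial (Fin 3) k) n →
    ∃ q, IsWeightedHomogeneous w q (n + j) ∧ φ p = Ideal.Quotient.mk L q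

/-- `φ` is the leading form of degree `j` of `ψ`: whenever all components of weight less than `n`
of `f ∈ I` vanish, `ψ f` is the class of some `g` all of whose components of weight less than
`n + j` vanish, and `φ` sends the component of weight `n` of `f` to the class of the component of
weight `n + j` of `g`. -/
def LeadingFormOf {k : Type*} [Field k] (w : Fin 3 → ℤ) (j : ℤ)
    {I L : Ideal (MvPolynomial (Fin 3) k)}
    (φ : L →ₗ[MvPolynomial (Fin 3) k] MvPolynomial (Fin 3) k ⧸ L)
    (ψ : I →ₗ[MvPolynomial (Fin 3) k] MvPolynomial (Fin 3) k ⧸ I) : Prop :=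
  ∀ (n : ℤ) (f : I), (∀ m < n, weightedHomogeneousComponent w m (f : MvPolynomial (Fin 3) k) = 0) →
    ∃ g, (∀ m < n + j, weightedHomogeneousComponent w m g = 0) ∧
      ψ f = Ideal.Quotient.mk I g ∧
      ∀ p : L, (p : MvPolynomial (Fin 3) k) = weightedHomogeneousComponent w n f →
        φ p = Ideal.Quotient.mk L (weightedHomogeneousComponent w (n + j) g)

/-- Some power of `(x₁,x₂,x₃)` lies in `I`, and every tangent vector of the initial ideal which is
homogeneous of a degree less than `-(w₁+w₂+w₃)/2` is the leading form of a tangent vector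
of `I`. -/
def NegativeLifting {k : Type*} [Field k] (w : Fin 3 → ℤ)
    (I : Ideal (MvPolynomial (Fin 3) k)) : Prop :=
  (∃ N : ℕ, idealOfVars (Fin 3) k ^ N ≤ I) ∧
  ∀ j : ℤ, 2 * j < -(w 0 + w 1 + w 2) →
    ∀ φ : initialIdeal w I →ₗ[MvPolynomial (Fin 3) k] MvPolynomial (Fin 3) k ⧸ initialIdeal w I,
    HomogeneousOfDegree w j φ →
    ∃ ψ : I →ₗ[MvPolynomial (Fin 3) k] MvPolynomial (Fin 3) k ⧸ I, LeadingFormOf w j φ ψ

/-- The smallest class of ideals which contains every ideal with negative lifting for some weights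
of odd sum, contains `I` if and only if it contains its initial ideal whenever `I` has negative
lifting, and is closed under isomorphism of the quotient algebras and under intersections of
coprime ideals. -/
inductive ParityClass {k : Type*} [Field k] : Ideal (MvPolynomial (Fin 3) k) → Prop
  | odd (w : Fin 3 → ℤ) (I : Ideal (MvPolynomial (Fin 3) k)) (hw : Odd (w 0 + w 1 + w 2))
      (hI : NegativeLifting w I) : ParityClass I
  | initial (w : Fin 3 → ℤ) (I : Ideal (MvPolynomial (Fin 3) k)) (hI : NegativeLifting w I)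
      (h : ParityClass I) : ParityClass (initialIdeal w I)
  | of_initial (w : Fin 3 → ℤ) (I : Ideal (MvPolynomial (Fin 3) k)) (hI : NegativeLifting w I)
      (h : ParityClass (initialIdeal w I)) : ParityClass I
  | iso (I J : Ideal (MvPolynomial (Fin 3) k))
      (e : Nonempty ((MvPolynomial (Fin 3) k ⧸ I) ≃ₐ[k] (MvPolynomial (Fin 3) k ⧸ J)))
      (h : ParityClass I) : ParityClass J
  | inter (I J : Ideal (MvPolynomial (Fin 3) k)) (hIJ : IsCoprime I J)
      (hI : ParityClass I) (hJ : ParityClass J) : ParityClass (I ⊓ J)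

/-- (a) If `I` has negative lifting for `w`, then `I` and its initial ideal have the same
colength, their tangent dimensions have the same parity, and if `w₁+w₂+w₃` is odd, this is the
parity of the colength.  (b) On the class `ParityClass` the tangent dimension has the parity of the
colength. -/
theorem result {k : Type*} [Field k] :
    (∀ (w : Fin 3 → ℤ) (I : Ideal (MvPolynomial (Fin 3) k)), NegativeLifting w I →
      Module.finrank k (MvPolynomial (Fin 3) k ⧸ I)
        = Module.finrank k (MvPolynomial (Fin 3) k ⧸ initialIdeal w I) ∧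
      Module.finrank k (I →ₗ[MvPolynomial (Fin 3) k] MvPolynomial (Fin 3) k ⧸ I)
        ≡ Module.finrank k (initialIdeal w I →ₗ[MvPolynomial (Fin 3) k]
          MvPolynomial (Fin 3) k ⧸ initialIdeal w I) [MOD 2] ∧
      (Odd (w 0 + w 1 + w 2) →
        Module.finrank k (I →ₗ[MvPolynomial (Fin 3) k] MvPolynomial (Fin 3) k ⧸ I)
          ≡ Module.finrank k (MvPolynomial (Fin 3) k ⧸ I) [MOD 2])) ∧
    (∀ I : Ideal (MvPolynomial (Fin 3) k), ParityClass I →
      Module.Finite k (MvPolynomial (Fin 3) k ⧸ I) ∧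
      Module.Finite k (I →ₗ[MvPolynomial (Fin 3) k] MvPolynomial (Fin 3) k ⧸ I) ∧
      Module.finrank k (I →ₗ[MvPolynomial (Fin 3) k] MvPolynomial (Fin 3) k ⧸ I)
        ≡ Module.finrank k (MvPolynomial (Fin 3) k ⧸ I) [MOD 2]) := by
  have hA : ∀ (w : Fin 3 → ℤ) (I : Ideal (MvPolynomial (Fin 3) k)), NegativeLifting w I →
      Module.Finite k (MvPolynomial (Fin 3) k ⧸ I) ∧
      Module.Finite k (MvPolynomial (Fin 3) k ⧸ initialIdeal w I) ∧
      Module.finrank k (MvPolynomial (Fin 3) k ⧸ I)
        = Module.finrank k (MvPolynomial (Fin 3) k ⧸ initialIdeal w I) ∧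
      (Odd (w 0 + w 1 + w 2) →
        Module.finrank k (I →ₗ[MvPolynomial (Fin 3) k] MvPolynomial (Fin 3) k ⧸ I)
          ≡ Module.finrank k (MvPolynomial (Fin 3) k ⧸ I) [MOD 2]) ∧
      Module.finrank k (I →ₗ[MvPolynomial (Fin 3) k] MvPolynomial (Fin 3) k ⧸ I)
        ≡ Module.finrank k (initialIdeal w I →ₗ[MvPolynomial (Fin 3) k]
          MvPolynomial (Fin 3) k ⧸ initialIdeal w I) [MOD 2] := by
    rintro w I ⟨⟨N, hN⟩, hI⟩
    exact Pool.Agent.H17.LF.parity_ini w I hN hI
  refine ⟨fun w I hI => ?_, fun I hI => ?_⟩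
  · obtain ⟨-, -, h1, h2, h3⟩ := hA w I hI
    exact ⟨h1, h3, h2⟩
  · have key : Module.Finite k (MvPolynomial (Fin 3) k ⧸ I) ∧
        Module.finrank k (I →ₗ[MvPolynomial (Fin 3) k] MvPolynomial (Fin 3) k ⧸ I)
          ≡ Module.finrank k (MvPolynomial (Fin 3) k ⧸ I) [MOD 2] := by
      induction hI with
      | odd w I hw hI =>
        obtain ⟨h0, -, -, h2, -⟩ := hA w I hI
        exact ⟨h0, h2 hw⟩
      | initial w I hI h ih =>
        obtain ⟨-, h0, h1, -, h3⟩ := hA w I hI
        refine ⟨h0, h3.symm.trans ?_⟩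
        rw [← h1]
        exact ih.2
      | of_initial w I hI h ih =>
        obtain ⟨h0, -, h1, -, h3⟩ := hA w I hI
        refine ⟨h0, h3.trans ?_⟩
        rw [h1]
        exact ih.2
      | iso I J e h ih =>
        obtain ⟨e⟩ := e
        have := ih.1
        refine ⟨Module.Finite.equiv e.toLinearEquiv, ?_⟩
        rw [← Pool.Agent.H17.LF.finrank_hom_of_equiv I J e,
          ← LinearEquiv.finrank_eq e.toLinearEquiv]
        exact ih.2
      | inter I J hIJ hI hJ ihI ihJ =>
        exact Pool.Agent.H13.Par.good_inf I J hIJ ihI ihJ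
    have := key.1
    exact ⟨key.1, Pool.Agent.H13.Par.finite_hom I, key.2⟩

end Pool.Agent.Results.MP_34e55c_ag.LeadingForms
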